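import Pool.Agent.R904.DG.Rel

/-!
# Relations between permutation characters

Existence of pure extensions (`exists_prime_not_pow`, `not_pow` are taken from `R433.MD`).
-/

set_option autoImplicit false

namespace Pool.Agent.R904.DG

open Polynomial NumberField

/-- almost all prime numbers are not powers in `K` -/
theorem exists_prime_not_pow (K : Type) [Field K] [NumberField K] {p : ℕ} (hp : 2 ≤ p) :
    ∃ l : ℕ, l.Prime ∧ ∀ γ : K, γ ^ p ≠ (l : K) := by
  obtain ⟨l, hl1, hl⟩ := Nat.exists_infinite_primes ((discr K).natAbs + 1)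
  refine ⟨l, hl, fun γ hγ => ?_⟩
  have hlZ : Prime (l : ℤ) := Nat.prime_iff_prime_int.1 hl
  have hnd : ¬ (l : ℤ) ∣ discr K := by
    intro h
    have h1 := Int.natAbs_dvd_natAbs.2 h
    rw [Int.natAbs_natCast] at h1
    have h2 : 0 < (discr K).natAbs := Int.natAbs_pos.2 (discr_ne_zero K)
    have := Nat.le_of_dvd h2 h1
    omega
  have hint : IsIntegral ℤ γ := by
    apply IsIntegral.of_pow (n := p) (by omega)
    rw [hγ]
    exact isIntegral_algebraMap (R := ℤ) (x := (l : ℤ)) |> fun h => by simpa using h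
  set c : 𝓞 K := ⟨γ, hint⟩ with hc
  have hcp : c ^ p = (l : 𝓞 K) := by
    apply RingOfIntegers.coe_injective (K := K)
    rw [map_pow, map_natCast]
    exact hγ
  -- a prime above `l`
  have hne : Ideal.span {(l : 𝓞 K)} ≠ ⊤ := by
    intro h
    rw [Ideal.span_singleton_eq_top] at h
    have h1 := h.map (Algebra.norm ℤ)
    have h2 : ((l : ℕ) : 𝓞 K) = algebraMap ℤ (𝓞 K) (l : ℤ) := by simp
    rw [h2, Algebra.norm_algebraMap, isUnit_pow_iff (Module.finrank_pos).ne'] at h1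
    exact hlZ.not_isUnit h1
  obtain ⟨P, hP, hlP⟩ := Ideal.exists_le_maximal _ hne
  have hlP' : (l : 𝓞 K) ∈ P := hlP (Ideal.mem_span_singleton_self _)
  have h1 := (not_dvd_discr_iff_forall_mem K (𝓞 K) hlZ).1 hnd P hP.isPrime (by simpa using hlP')
  have h2 : ¬ P ∣ differentIdeal ℤ (𝓞 K) := not_dvd_differentIdeal_iff.2 h1
  have hcP : c ∈ P := hP.isPrime.mem_of_pow_mem p (by rw [hcp]; exact hlP')
  have hmax : (Ideal.span {(l : ℤ)}).IsMaximal :=
    PrincipalIdealRing.isMaximal_of_irreducible hlZ.irreducible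
  have hbot : Ideal.span {(l : ℤ)} ≠ ⊥ := by
    rw [Ne, Ideal.span_singleton_eq_bot]
    exact hlZ.ne_zero
  have hdvd : P ^ 2 ∣ (Ideal.span {(l : ℤ)}).map (algebraMap ℤ (𝓞 K)) := by
    rw [Ideal.map_span, Set.image_singleton, Ideal.dvd_iff_le, Ideal.span_singleton_le_iff_mem]
    have e : algebraMap ℤ (𝓞 K) (l : ℤ) = c ^ p := by rw [hcp]; simp
    rw [e]
    exact Ideal.pow_le_pow_right hp (Ideal.pow_mem_pow hcP p)
  have h3 := pow_sub_one_dvd_differentIdeal (A := ℤ) P 2 hbot hdvd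
  exact h2 (by simpa using h3)

/-- products `a b^j` are not powers -/
theorem not_pow {K : Type} [Field K] {F : Type} [Field F] [Algebra K F] {p : ℕ} (hp : p.Prime)
    {a b : K} {α : F}
    (hα : α ^ p = algebraMap K F a) (ha : ∀ γ : K, γ ^ p ≠ a)
    (hb : ∀ γ : F, γ ^ p ≠ algebraMap K F b) {j : ℕ} (hj : j < p) :
    ∀ γ : K, γ ^ p ≠ a * b ^ j := by
  intro γ hγ
  rcases Nat.eq_zero_or_pos j with h0 | h0
  · rw [h0, pow_zero, mul_one] at hγ
    exact ha γ hγ
  · have ha0 : a ≠ 0 := fun h => ha 0 (by rw [h, zero_pow hp.ne_zero])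
    have hb0 : algebraMap K F b ≠ 0 := fun h => hb 0 (by rw [h, zero_pow hp.ne_zero])
    have ha0' : algebraMap K F a ≠ 0 := by
      rwa [Ne, map_eq_zero_iff _ (algebraMap K F).injective]
    have hα0 : α ≠ 0 := fun h => ha0' (by rw [← hα, h, zero_pow hp.ne_zero])
    have h1 : (algebraMap K F γ / α) ^ p = (algebraMap K F b) ^ j := by
      rw [div_pow, hα, ← map_pow, hγ, map_mul, map_pow, mul_div_cancel_left₀ _ ha0']
    have hcop : Nat.Coprime j p := by
      rw [Nat.coprime_comm, hp.coprime_iff_not_dvd]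
      intro h5
      exact absurd (Nat.le_of_dvd h0 h5) (not_le.2 hj)
    have h6 := Nat.gcd_eq_gcd_ab j p
    rw [hcop] at h6
    refine hb ((algebraMap K F γ / α) ^ (j.gcdA p) * (algebraMap K F b) ^ (j.gcdB p)) ?_
    have h7 : ((algebraMap K F γ / α) ^ (j.gcdA p) * (algebraMap K F b) ^ (j.gcdB p)) ^ p =
        (algebraMap K F b) ^ ((j : ℤ) * j.gcdA p + (p : ℤ) * j.gcdB p) := by
      rw [mul_pow, ← zpow_natCast, ← zpow_natCast, ← zpow_mul, ← zpow_mul, mul_comm (j.gcdA p),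
        zpow_mul, zpow_natCast, h1, ← zpow_natCast, ← zpow_mul, mul_comm (j.gcdB p),
        ← zpow_add₀ hb0]
    rw [h7, ← h6]
    simp

/-- restriction of scalars -/
noncomputable def Ext.restrict {K : Type} [Field K] [NumberField K] (Z : Ext K) (Y : Ext Z.F) :
    Ext K :=
  letI : Algebra K Y.F := ((algebraMap Z.F Y.F).comp (algebraMap K Z.F)).toAlgebra
  ⟨Y.F⟩

section
variable {K : Type} [Field K] [NumberField K]

instance (Z : Ext K) : FiniteDimensional K Z.F := Module.Finite.of_restrictScalars_finite ℚ K Z.F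

theorem deg_restrict (Z : Ext K) (Y : Ext Z.F) :
    (Z.restrict Y).deg = Z.deg * Y.deg := by
  letI : Algebra K Y.F := ((algebraMap Z.F Y.F).comp (algebraMap K Z.F)).toAlgebra
  haveI : IsScalarTower K Z.F Y.F := IsScalarTower.of_algebraMap_eq' rfl
  exact (Module.finrank_mul_finrank K Z.F Y.F).symm

/-- the number of the homomorphisms from `Z` to `Ω` which extend `φ` and are fixed by `g` -/
noncomputable def Ext.cnt (Z : Ext K) {Ω : Type} [Field Ω] (φ : K →+* Ω) (g : Ω ≃+* Ω) : ℕ :=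
  fx Z.F φ g

/-- the numbers of fixed embeddings satisfy `∑ nᵢ fᵢ = m` -/
def Rel {ι : Type} [Fintype ι] (Z : ι → Ext K) (n : ι → ℤ) (m : ℤ) : Prop :=
  ∀ (Ω : Type) [Field Ω] [IsAlgClosed Ω] (φ : K →+* Ω) (g : Ω ≃+* Ω),
    (g : Ω →+* Ω).comp φ = φ → ∑ i, n i * ((Z i).cnt φ g : ℤ) = m

/-- induction of relations -/
theorem fx_restrict (Z : Ext K) {ι : Type} [Fintype ι] {Y : ι → Ext Z.F} {n : ι → ℤ} {m : ℤ}
    (h : Rel Y n m) (Ω : Type) [Field Ω] [IsAlgClosed Ω] (φ : K →+* Ω) (g : Ω ≃+* Ω) :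
    ∑ i, n i * ((Z.restrict (Y i)).cnt φ g : ℤ) = m * Z.cnt φ g := by
  have hfin := finite_over (K := K) (F := Z.F) (φ := φ) (g := g)
  letI := Fintype.ofFinite (Over Z.F φ g)
  have h1 : ∀ i, ((Z.restrict (Y i)).cnt φ g : ℤ) = ∑ τ : Over Z.F φ g, ((Y i).cnt τ.1 g : ℤ) := by
    intro i
    letI : Algebra K (Y i).F := ((algebraMap Z.F (Y i).F).comp (algebraMap K Z.F)).toAlgebra
    haveI : IsScalarTower K Z.F (Y i).F := IsScalarTower.of_algebraMap_eq' rfl
    have h2 := fx_tower (K := K) (F := Z.F) (L := (Y i).F) (φ := φ) (g := g)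
    have h3 : (Z.restrict (Y i)).cnt φ g = fx (Y i).F φ g := rfl
    rw [h3, h2]
    push_cast
    rfl
  calc ∑ i, n i * ((Z.restrict (Y i)).cnt φ g : ℤ)
      = ∑ i, ∑ τ : Over Z.F φ g, n i * ((Y i).cnt τ.1 g : ℤ) := by
        refine Finset.sum_congr rfl fun i _ => ?_
        rw [h1, Finset.mul_sum]
    _ = ∑ τ : Over Z.F φ g, ∑ i, n i * ((Y i).cnt τ.1 g : ℤ) := Finset.sum_comm
    _ = ∑ τ : Over Z.F φ g, m := Finset.sum_congr rfl fun τ _ => h Ω τ.1 g τ.2.2
    _ = m * Z.cnt φ g := by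
        rw [Finset.sum_const, Finset.card_univ, ← Nat.card_eq_fintype_card, nsmul_eq_mul, mul_comm]
        rfl

/-- pure extensions -/
theorem exists_pure {p : ℕ} (hp : p.Prime) {c : K} (hc : ∀ γ : K, γ ^ p ≠ c) :
    ∃ Z : Ext K, Z.deg = p ∧ (∃ α : Z.F, α ^ p = algebraMap K Z.F c) ∧
      ∀ (Ω : Type) [Field Ω] (φ : K →+* Ω) (g : Ω ≃+* Ω), (g : Ω →+* Ω).comp φ = φ →
        Z.cnt φ g = nr p g (φ c) := by
  have hirr : Irreducible (X ^ p - C c) := X_pow_sub_C_irreducible_of_prime hp hc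
  have hfact : Fact (Irreducible (X ^ p - C c)) := ⟨hirr⟩
  let B : PowerBasis K (AdjoinRoot (X ^ p - C c)) := AdjoinRoot.powerBasis hirr.ne_zero
  have hfin : Module.Finite K (AdjoinRoot (X ^ p - C c)) := B.finite
  have hch : CharZero (AdjoinRoot (X ^ p - C c)) :=
    charZero_of_injective_algebraMap (algebraMap K _).injective
  have hnf : NumberField (AdjoinRoot (X ^ p - C c)) := NumberField.of_module_finite K _
  refine ⟨⟨AdjoinRoot (X ^ p - C c)⟩, ?_, ⟨AdjoinRoot.root _, ?_⟩, fun Ω _ φ g hg => fx_pure hg⟩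
  · change Module.finrank K (AdjoinRoot (X ^ p - C c)) = p
    rw [B.finrank]
    exact (AdjoinRoot.powerBasis_dim hirr.ne_zero).trans natDegree_X_pow_sub_C
  · have h1 := AdjoinRoot.eval₂_root (X ^ p - C c)
    rw [eval₂_sub, eval₂_pow, eval₂_X, eval₂_C, sub_eq_zero] at h1
    exact h1

/-- the relation of a prime number -/
theorem base_step (K : Type) [Field K] [NumberField K] {p : ℕ} (hp : p.Prime) :
    ∃ (Z : Option (Fin p) → Ext K) (Y : Ext K), (∀ j, (Z j).deg = p) ∧ Y.deg = p * p ∧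
      ∀ (Ω : Type) [Field Ω] [IsAlgClosed Ω] (φ : K →+* Ω) (g : Ω ≃+* Ω),
        (g : Ω →+* Ω).comp φ = φ → ∑ j, (Z j).cnt φ g = Y.cnt φ g + p := by
  obtain ⟨l1, hl1, h1⟩ := exists_prime_not_pow K hp.two_le
  obtain ⟨Z1, hd1, ⟨α, hα⟩, hf1⟩ := exists_pure hp h1
  obtain ⟨l2, hl2, h2⟩ := exists_prime_not_pow Z1.F hp.two_le
  obtain ⟨Y1, hd2, -, hf2⟩ := exists_pure hp h2
  have hb1 : ∀ γ : Z1.F, γ ^ p ≠ algebraMap K Z1.F (l2 : K) := fun γ => by
    rw [map_natCast]
    exact h2 γ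
  have hb : ∀ γ : K, γ ^ p ≠ (l2 : K) := fun γ hγ => by
    apply hb1 (algebraMap K Z1.F γ)
    rw [← map_pow, hγ]
  let c : Option (Fin p) → K := fun j => j.elim (l2 : K) (fun i => (l1 : K) * (l2 : K) ^ (i : ℕ))
  have hc : ∀ j, ∀ γ : K, γ ^ p ≠ c j := by
    rintro (_ | i)
    · exact hb
    · exact not_pow hp hα h1 hb1 i.2
  choose Z hd _ hf using fun j => exists_pure hp (hc j)
  refine ⟨Z, Z1.restrict Y1, hd, by rw [deg_restrict, hd1, hd2], fun Ω _ _ φ g hg => ?_⟩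
  have hch : CharZero Ω := charZero_of_injective_ringHom φ.injective
  have hY : (Z1.restrict Y1).cnt φ g = nr p g (φ l1) * nr p g (φ l2) := by
    have hfin := finite_over (K := K) (F := Z1.F) (φ := φ) (g := g)
    letI := Fintype.ofFinite (Over Z1.F φ g)
    letI : Algebra K Y1.F := ((algebraMap Z1.F Y1.F).comp (algebraMap K Z1.F)).toAlgebra
    haveI : IsScalarTower K Z1.F Y1.F := IsScalarTower.of_algebraMap_eq' rfl
    have h3 := fx_tower (K := K) (F := Z1.F) (L := Y1.F) (φ := φ) (g := g)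
    have h4 : (Z1.restrict Y1).cnt φ g = fx Y1.F φ g := rfl
    rw [h4, h3]
    have h5 : ∀ τ : Over Z1.F φ g, fx Y1.F τ.1 g = nr p g (φ l2) := by
      intro τ
      have h6 := hf2 Ω τ.1 g τ.2.2
      rw [map_natCast] at h6 ⊢
      exact h6
    rw [Finset.sum_congr rfl fun τ _ => h5 τ, Finset.sum_const, Finset.card_univ,
      ← Nat.card_eq_fintype_card, smul_eq_mul]
    congr 1
    exact hf1 Ω φ g hg
  have hfix : ∀ x : K, g (φ x) = φ x := fun x => congrArg (fun f : K →+* Ω => f x) hg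
  have hl1' : φ (l1 : K) ≠ 0 := by
    rw [map_natCast]
    exact_mod_cast hl1.ne_zero
  have hl2' : φ (l2 : K) ≠ 0 := by
    rw [map_natCast]
    exact_mod_cast hl2.ne_zero
  rw [hY, ← nr_identity g hp hl1' hl2' (hfix _) (hfix _), Fintype.sum_option, hf none Ω φ g hg,
    add_comm]
  congr 1
  refine Finset.sum_congr rfl fun i _ => ?_
  rw [hf (some i) Ω φ g hg]
  congr 1
  change φ ((l1 : K) * (l2 : K) ^ (i : ℕ)) = _
  rw [map_mul, map_pow]

end

/-- `n` times the trivial character -/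
theorem rel_pow (n : ℕ) : 0 < n → ∀ (K : Type) [Field K] [NumberField K],
    ∃ (ι : Type) (_ : Fintype ι) (Z : ι → Ext K) (e : ι → ℤ),
      (∀ i, n ∣ (Z i).deg ∧ (Z i).deg ∣ n ^ 2) ∧ Rel Z e n := by
  induction n using Nat.strong_induction_on with
  | _ n ih =>
    intro hn K _ _
    rcases Nat.eq_or_lt_of_le (Nat.succ_le_of_lt hn) with h1 | h1
    · subst h1
      refine ⟨Unit, inferInstance, fun _ => Ext.self K, fun _ => 1, fun _ => ?_,
        fun Ω _ _ φ g hg => ?_⟩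
      · have e : (Ext.self K).deg = 1 := Module.finrank_self K
        rw [e]
        exact ⟨dvd_rfl, by norm_num⟩
      · have e : (Ext.self K).cnt φ g = 1 := fx_self hg
        simp [e]
    · -- a prime factor
      obtain ⟨p, hp, m, rfl⟩ := Nat.exists_prime_and_dvd (n := n) (by omega)
      have hm : 0 < m := Nat.pos_of_ne_zero fun h => by simp [h] at hn
      have hlt : m < p * m := by
        have := hp.two_le
        nlinarith
      obtain ⟨Z, Y, hZ, hY, hrel⟩ := base_step K hp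
      choose ιZ hfZ XZ eZ hXZ hcZ using fun j => ih m hlt hm (Z j).F
      obtain ⟨ιY, hfY, XY, eY, hXY, hcY⟩ := ih m hlt hm Y.F
      refine ⟨(Σ j, ιZ j) ⊕ ιY, inferInstance,
        Sum.elim (fun q => (Z q.1).restrict (XZ q.1 q.2)) (fun i => Y.restrict (XY i)),
        Sum.elim (fun q => eZ q.1 q.2) (fun i => - eY i), ?_, fun Ω _ _ φ g hg => ?_⟩
      · rintro (⟨j, i⟩ | i)
        · rw [Sum.elim_inl, deg_restrict, hZ]
          refine ⟨mul_dvd_mul_left p (hXZ j i).1, ?_⟩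
          rw [mul_pow]
          exact mul_dvd_mul (dvd_pow_self p two_ne_zero) (hXZ j i).2
        · rw [Sum.elim_inr, deg_restrict, hY]
          refine ⟨?_, ?_⟩
          · rw [mul_assoc]
            exact mul_dvd_mul_left p (Dvd.dvd.mul_left (hXY i).1 p)
          · rw [mul_pow, sq p]
            exact mul_dvd_mul_left _ (hXY i).2
      · rw [Fintype.sum_sum_type, Fintype.sum_sigma]
        simp only [Sum.elim_inl, Sum.elim_inr, neg_mul, Finset.sum_neg_distrib]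
        rw [fx_restrict Y hcY Ω φ g, Finset.sum_congr rfl fun j _ => fx_restrict (Z j) (hcZ j) Ω φ g,
          ← Finset.mul_sum]
        have h3 : ∑ j, ((Z j).cnt φ g : ℤ) = Y.cnt φ g + p := by exact_mod_cast hrel Ω φ g hg
        rw [h3]
        push_cast
        ring

/-- `gcd m n` times the trivial character -/
theorem rel_gcd {m n : ℕ} (hm : 0 < m) (hn : 0 < n) (K : Type) [Field K] [NumberField K] :
    ∃ (r : ℕ) (Z : Fin r → Ext K) (e : Fin r → ℤ),
      (∀ i, (m ∣ (Z i).deg ∧ (Z i).deg ∣ m ^ 2) ∨ (n ∣ (Z i).deg ∧ (Z i).deg ∣ n ^ 2)) ∧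
      Rel Z e (Nat.gcd m n) := by
  obtain ⟨ι1, h1, Z1, e1, hZ1, hC1⟩ := rel_pow m hm K
  obtain ⟨ι2, h2, Z2, e2, hZ2, hC2⟩ := rel_pow n hn K
  let e := Fintype.equivFin (ι1 ⊕ ι2)
  have key : ∀ x : ι1 ⊕ ι2, (m ∣ (Sum.elim Z1 Z2 x).deg ∧ (Sum.elim Z1 Z2 x).deg ∣ m ^ 2) ∨
      (n ∣ (Sum.elim Z1 Z2 x).deg ∧ (Sum.elim Z1 Z2 x).deg ∣ n ^ 2) := by
    rintro (j | j)
    · exact Or.inl (hZ1 j)
    · exact Or.inr (hZ2 j)
  refine ⟨_, fun i => Sum.elim Z1 Z2 (e.symm i),
    fun i => Sum.elim (fun j => m.gcdA n * e1 j) (fun j => m.gcdB n * e2 j) (e.symm i),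
    fun i => key (e.symm i), fun Ω _ _ φ g hg => ?_⟩
  rw [Equiv.sum_comp e.symm (fun x => Sum.elim (fun j => m.gcdA n * e1 j)
    (fun j => m.gcdB n * e2 j) x * ((Sum.elim Z1 Z2 x).cnt φ g : ℤ)), Fintype.sum_sum_type]
  simp only [Sum.elim_inl, Sum.elim_inr, mul_assoc]
  rw [← Finset.mul_sum, ← Finset.mul_sum, hC1 Ω φ g hg, hC2 Ω φ g hg, Nat.gcd_eq_gcd_ab]
  ring

/-- **The trivial character is an integral combination of permutation characters of large degree.** -/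
theorem permChar_gcd {m n : ℕ} (hm : 0 < m) (hn : 0 < n) (K : Type) [Field K] [NumberField K] :
    ∃ (r : ℕ) (Z : Fin r → Ext K) (e : Fin r → ℤ),
      (∀ i, (m ∣ (Z i).deg ∧ (Z i).deg ∣ m ^ 2) ∨ (n ∣ (Z i).deg ∧ (Z i).deg ∣ n ^ 2)) ∧
      ∀ g, ∑ i, e i * (permChar (Z i) g : ℤ) = Nat.gcd m n := by
  obtain ⟨r, Z, e, hd, hrel⟩ := rel_gcd hm hn K
  refine ⟨r, Z, e, hd, fun g => ?_⟩
  have h1 := hrel (AlgebraicClosure K) (algebraMap K (AlgebraicClosure K)) g.toRingEquiv (by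
    ext x
    exact g.commutes x)
  rw [← h1]
  refine Finset.sum_congr rfl fun i _ => ?_
  congr 2
  unfold permChar Ext.cnt fx
  refine Nat.card_congr
    { toFun := fun τ => ⟨τ.1.toRingHom, ?_, ?_⟩
      invFun := fun σ => ⟨{ σ.1 with
        commutes' := fun x => congrArg (fun f : K →+* AlgebraicClosure K => f x) σ.2.1 }, ?_⟩
      left_inv := fun _ => rfl
      right_inv := fun _ => rfl }
  · ext x
    exact τ.1.commutes x
  · ext x
    exact τ.2 x
  · intro x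
    exact congrArg (fun f : (Z i).F →+* AlgebraicClosure K => f x) σ.2.2

end Pool.Agent.R904.DG
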