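import Pool.Agent.R904.DG.MotMain

/-!
# A relation as an identity between sums over lists
-/

set_option autoImplicit false

namespace Pool.Agent.R904.DG

theorem lists_of_relation {K : Type} [Field K] [NumberField K] {r : ℕ} {Z : Fin r → Ext K}
    {e : Fin r → ℤ} (h : IsRelation Z e 1) :
    ∃ A B : List (Ext K), (∀ F ∈ A, ∃ i, F = Z i) ∧ (∀ F ∈ B, ∃ i, F = Z i) ∧
      ∀ g, (A.map fun F => permChar F g).sum =
        ((Ext.self K :: B).map fun F => permChar F g).sum := by
  have key : ∀ f : Fin r → ℕ, ∃ A : List (Ext K), (∀ F ∈ A, ∃ i, F = Z i) ∧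
      ∀ g, (A.map fun F => permChar F g).sum = ∑ i, f i * permChar (Z i) g := by
    intro f
    refine ⟨(List.ofFn fun i => List.replicate (f i) (Z i)).flatten, ?_, ?_⟩
    · intro F hF
      rw [List.mem_flatten] at hF
      obtain ⟨l, hl, hF⟩ := hF
      rw [List.mem_ofFn] at hl
      obtain ⟨i, rfl⟩ := hl
      exact ⟨i, List.eq_of_mem_replicate hF⟩
    · intro g
      rw [List.map_flatten, List.sum_flatten, List.map_ofFn, List.map_ofFn, List.sum_ofFn]
      refine Finset.sum_congr rfl fun i _ => ?_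
      simp [Function.comp]
  obtain ⟨A, hA, hA'⟩ := key fun i => (e i).toNat
  obtain ⟨B, hB, hB'⟩ := key fun i => (-e i).toNat
  refine ⟨A, B, hA, hB, fun g => ?_⟩
  rw [List.map_cons, List.sum_cons, hA', hB', permChar_self]
  have h1 := h g
  have h2 : ∀ i, (e i) * (permChar (Z i) g : ℤ) =
      ((e i).toNat * permChar (Z i) g : ℕ) - ((-e i).toNat * permChar (Z i) g : ℕ) := by
    intro i
    push_cast
    rw [← sub_mul]
    congr 1
    omega
  simp only [h2, Finset.sum_sub_distrib] at h1
  rw [← Nat.cast_sum, ← Nat.cast_sum] at h1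
  omega

end Pool.Agent.R904.DG
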