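import Mathlib

/-!
# Fixed roots of pure equations
-/

set_option autoImplicit false

namespace Pool.Agent.R904.DG

section Group

variable {μ : Type*} [CommGroup μ] [Finite μ] {p : ℕ}

/-- number of solutions of `f z = w` -/
noncomputable def ns (f : μ →* μ) (w : μ) : ℕ := Nat.card {z : μ // f z = w}

theorem ns_identity (hp : p.Prime) (hμ : Nat.card μ = p) (f : μ →* μ) (u v : μ) :
    ∑ j : Fin p, ns f (u * v ^ (j : ℕ)) + ns f v = ns f u * ns f v + p := by
  classical
  have : Fact p.Prime := ⟨hp⟩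
  have : Fact (Nat.card μ).Prime := ⟨by rw [hμ]; exact hp⟩
  rcases Subgroup.eq_bot_or_eq_top_of_prime_card f.ker with h | h
  · have hinj : Function.Injective f := (MonoidHom.ker_eq_bot_iff f).1 h
    have hbij : Function.Bijective f := Finite.injective_iff_bijective.1 hinj
    have h1 : ∀ w, ns f w = 1 := by
      intro w
      unfold ns
      rw [Nat.card_eq_one_iff_unique]
      obtain ⟨z, hz⟩ := hbij.2 w
      exact ⟨⟨fun x y => Subtype.ext (hinj (x.2.trans y.2.symm))⟩, ⟨⟨z, hz⟩⟩⟩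
    simp only [h1, Finset.sum_const, Finset.card_univ, Fintype.card_fin, smul_eq_mul, mul_one]
    omega
  · have hf : ∀ z, f z = 1 := fun z => by
      have : z ∈ f.ker := by rw [h]; trivial
      exact this
    have h1 : ∀ w, ns f w = if w = 1 then p else 0 := by
      intro w
      unfold ns
      split_ifs with hw
      · subst hw
        rw [← hμ]
        exact Nat.card_congr (Equiv.subtypeUnivEquiv hf)
      · have : IsEmpty {z : μ // f z = w} := ⟨fun z => hw ((z.2.symm.trans (hf z.1)))⟩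
        exact Nat.card_of_isEmpty
    simp only [h1]
    by_cases hv : v = 1
    · subst hv
      simp only [one_pow, mul_one, Finset.sum_const, Finset.card_univ, Fintype.card_fin,
        smul_eq_mul, if_true]
      ring
    · rw [if_neg hv]
      have hord : orderOf v = p := by
        have h2 := orderOf_dvd_natCard v
        rw [hμ] at h2
        rcases (Nat.dvd_prime hp).1 h2 with h3 | h3
        · exact absurd (orderOf_eq_one_iff.1 h3) hv
        · exact h3
      have hgen : ∃ j : Fin p, u * v ^ (j : ℕ) = 1 := by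
        have h2 : u⁻¹ ∈ Subgroup.zpowers v := by
          rw [zpowers_eq_top_of_prime_card hμ hv]
          trivial
        rw [← mem_powers_iff_mem_zpowers, Submonoid.mem_powers_iff] at h2
        obtain ⟨n, hn⟩ := h2
        refine ⟨⟨n % p, Nat.mod_lt _ hp.pos⟩, ?_⟩
        simp only
        rw [← hord, pow_mod_orderOf, hn, mul_inv_cancel]
      obtain ⟨j, hj⟩ := hgen
      rw [Finset.sum_eq_single j]
      · rw [if_pos hj]
        simp
      · intro i _ hij
        rw [if_neg]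
        intro hi
        apply hij
        apply Fin.ext
        have h2 : v ^ (i : ℕ) = v ^ (j : ℕ) := mul_left_cancel (hi.trans hj.symm)
        have h3 := pow_inj_mod.1 h2
        rw [hord, Nat.mod_eq_of_lt i.2, Nat.mod_eq_of_lt j.2] at h3
        exact h3
      · intro h2
        exact absurd (Finset.mem_univ _) h2

end Group

section Field

variable {Ω : Type*} [Field Ω]

/-- the number of the `p`-th roots of `c` fixed by `g` -/
noncomputable def nr (p : ℕ) (g : Ω ≃+* Ω) (c : Ω) : ℕ := Nat.card {x : Ω // x ^ p = c ∧ g x = x}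

variable {p : ℕ} (g : Ω ≃+* Ω)

/-- `z ↦ g z / z` -/
noncomputable def quo : rootsOfUnity p Ω →* rootsOfUnity p Ω where
  toFun z := ⟨Units.map (g : Ω →* Ω) z.1 / z.1, by
    rw [mem_rootsOfUnity, div_pow, ← map_pow, (mem_rootsOfUnity _ _).1 z.2, map_one, div_one]⟩
  map_one' := by
    apply Subtype.ext
    simp
  map_mul' := by
    intro x y
    apply Subtype.ext
    simp only [Subgroup.coe_mul, map_mul]
    exact mul_div_mul_comm _ _ _ _

lemma quo_apply (z : rootsOfUnity p Ω) :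
    (((quo g z : rootsOfUnity p Ω) : Ωˣ) : Ω) = g ((z : Ωˣ) : Ω) / ((z : Ωˣ) : Ω) := by
  change ((Units.map (g : Ω →* Ω) z.1 / z.1 : Ωˣ) : Ω) = _
  rw [Units.val_div_eq_div_val]
  rfl

lemma nr_eq (hp : p ≠ 0) {γ : Ω} (hγ : γ ≠ 0) (w : rootsOfUnity p Ω)
    (hw : g γ * ((w : Ωˣ) : Ω) = γ) : nr p g (γ ^ p) = ns (quo g) w := by
  unfold nr ns
  refine Nat.card_congr
    { toFun := fun x => ⟨⟨Units.mk0 (x.1 / γ) ?_, ?_⟩, ?_⟩
      invFun := fun z => ⟨((z.1 : Ωˣ) : Ω) * γ, ?_, ?_⟩
      left_inv := ?_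
      right_inv := ?_ }
  · have : x.1 ≠ 0 := by
      intro h
      have h1 := x.2.1
      rw [h, zero_pow hp] at h1
      exact pow_ne_zero p hγ h1.symm
    exact div_ne_zero this hγ
  · rw [mem_rootsOfUnity]
    apply Units.ext
    simp only [Units.val_pow_eq_pow_val, Units.val_mk0, Units.val_one]
    rw [div_pow, x.2.1, div_self (pow_ne_zero p hγ)]
  · apply Subtype.ext
    apply Units.ext
    rw [quo_apply]
    simp only [Units.val_mk0]
    have hx : x.1 ≠ 0 := by
      intro h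
      have h1 := x.2.1
      rw [h, zero_pow hp] at h1
      exact pow_ne_zero p hγ h1.symm
    have hg : g γ ≠ 0 := by
      intro h
      rw [h, zero_mul] at hw
      exact hγ hw.symm
    rw [map_div₀, x.2.2]
    have : γ / g γ = ((w : Ωˣ) : Ω) := by
      rw [div_eq_iff hg, mul_comm, hw]
    rw [← this]
    field_simp
  · rw [mul_pow]
    have h1 := (mem_rootsOfUnity _ _).1 z.1.2
    have h2 := congrArg (fun y : Ωˣ => (y : Ω)) h1
    simp only [Units.val_pow_eq_pow_val, Units.val_one] at h2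
    rw [h2, one_mul]
  · have h1 := z.2
    have h2 : g ((z.1 : Ωˣ) : Ω) / ((z.1 : Ωˣ) : Ω) = ((w : Ωˣ) : Ω) := by
      rw [← quo_apply, h1]
    have h3 : ((z.1 : Ωˣ) : Ω) ≠ 0 := Units.ne_zero _
    rw [div_eq_iff h3] at h2
    rw [map_mul, h2]
    calc ((w : Ωˣ) : Ω) * ((z.1 : Ωˣ) : Ω) * g γ = ((z.1 : Ωˣ) : Ω) * (g γ * ((w : Ωˣ) : Ω)) := by
          ring
      _ = _ := by rw [hw]
  · intro x
    apply Subtype.ext
    simp only [Units.val_mk0]
    exact div_mul_cancel₀ _ hγ
  · intro z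
    apply Subtype.ext
    apply Subtype.ext
    apply Units.ext
    simp only [Units.val_mk0]
    exact mul_div_cancel_right₀ _ hγ

/-- the relation between the numbers of fixed roots -/
theorem nr_identity [IsAlgClosed Ω] [CharZero Ω] (hp : p.Prime) {a b : Ω} (ha : a ≠ 0) (hb : b ≠ 0)
    (hga : g a = a) (hgb : g b = b) :
    ∑ j : Fin p, nr p g (a * b ^ (j : ℕ)) + nr p g b = nr p g a * nr p g b + p := by
  have : NeZero p := ⟨hp.ne_zero⟩
  have : NeZero (p : Ω) := ⟨by exact_mod_cast hp.ne_zero⟩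
  have hcard : Nat.card (rootsOfUnity p Ω) = p := HasEnoughRootsOfUnity.natCard_rootsOfUnity Ω p
  have hfin : Finite (rootsOfUnity p Ω) := Nat.finite_of_card_ne_zero (by rw [hcard]; exact hp.ne_zero)
  have key : ∀ c : Ω, c ≠ 0 → g c = c → ∃ γ : Ω, ∃ w : rootsOfUnity p Ω, γ ≠ 0 ∧ γ ^ p = c ∧
      g γ * ((w : Ωˣ) : Ω) = γ := by
    intro c hc hgc
    obtain ⟨γ, hγ⟩ := IsAlgClosed.exists_pow_nat_eq c hp.pos
    have hγ0 : γ ≠ 0 := by
      intro h
      rw [h, zero_pow hp.ne_zero] at hγ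
      exact hc hγ.symm
    have hg : g γ ≠ 0 := by
      rw [Ne, EmbeddingLike.map_eq_zero_iff]
      exact hγ0
    refine ⟨γ, ⟨Units.mk0 (γ / g γ) (div_ne_zero hγ0 hg), ?_⟩, hγ0, hγ, ?_⟩
    · rw [mem_rootsOfUnity]
      apply Units.ext
      simp only [Units.val_pow_eq_pow_val, Units.val_mk0, Units.val_one]
      rw [div_pow, ← map_pow, hγ, hgc, div_self hc]
    · simp only [Units.val_mk0]
      exact mul_div_cancel₀ _ hg
  obtain ⟨α, u, hα0, hα, hu⟩ := key a ha hga
  obtain ⟨β, v, hβ0, hβ, hv⟩ := key b hb hgb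
  have h1 : ∀ j : Fin p, nr p g (a * b ^ (j : ℕ)) = ns (quo g) (u * v ^ (j : ℕ)) := by
    intro j
    have h2 : a * b ^ (j : ℕ) = (α * β ^ (j : ℕ)) ^ p := by
      rw [mul_pow, hα, ← pow_mul, mul_comm (j : ℕ) p, pow_mul, hβ]
    rw [h2]
    refine nr_eq g hp.ne_zero (mul_ne_zero hα0 (pow_ne_zero _ hβ0)) _ ?_
    simp only [Subgroup.coe_mul, SubmonoidClass.coe_pow, Units.val_mul, Units.val_pow_eq_pow_val,
      map_mul, map_pow]
    calc g α * g β ^ (j : ℕ) * (((u : Ωˣ) : Ω) * ((v : Ωˣ) : Ω) ^ (j : ℕ))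
        = (g α * ((u : Ωˣ) : Ω)) * (g β * ((v : Ωˣ) : Ω)) ^ (j : ℕ) := by rw [mul_pow]; ring
      _ = _ := by rw [hu, hv]
  rw [Finset.sum_congr rfl fun j _ => h1 j, ← hα, ← hβ, nr_eq g hp.ne_zero hα0 u hu,
    nr_eq g hp.ne_zero hβ0 v hv]
  exact ns_identity hp hcard (quo g) u v

end Field

end Pool.Agent.R904.DG
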