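import Mathlib

/-!
# Finite extensions of a number field and their permutation characters
-/

set_option autoImplicit false

namespace Pool.Agent.R904.DG

/-- a finite extension of the number field `K` -/
structure Ext (K : Type) [Field K] [NumberField K] where
  F : Type
  [field : Field F]
  [nf : NumberField F]
  [alg : Algebra K F]

attribute [instance] Ext.field Ext.nf Ext.alg

/-- the degree `[F : K]` -/
noncomputable def Ext.deg {K : Type} [Field K] [NumberField K] (F : Ext K) : ℕ :=
  Module.finrank K F.F

/-- the extension `K / K` -/
noncomputable def Ext.self (K : Type) [Field K] [NumberField K] : Ext K := ⟨K⟩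

/-- The permutation character of `F / K`: the number of the `K`-embeddings of `F` into the algebraic
closure of `K` which are fixed by `g`. -/
noncomputable def permChar {K : Type} [Field K] [NumberField K] (F : Ext K)
    (g : AlgebraicClosure K ≃ₐ[K] AlgebraicClosure K) : ℕ :=
  Nat.card {τ : F.F →ₐ[K] AlgebraicClosure K // ∀ x, g (τ x) = τ x}

end Pool.Agent.R904.DG
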