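import Pool.Agent.R904.DG.Ext

/-!
# Artin formalism: definitions
-/

set_option autoImplicit false

namespace Pool.Agent.R904.DG

/-- `k` times the trivial character is a linear combination of permutation characters:
`∑ eᵢ π(Fᵢ) = k`. -/
def IsRelation {K : Type} [Field K] [NumberField K] {r : ℕ} (F : Fin r → Ext K) (e : Fin r → ℤ)
    (k : ℤ) : Prop :=
  ∀ g, ∑ i, e i * (permChar (F i) g : ℤ) = k

/-- the degree of `F` is divisible by `m` and divides `m²`, or the same for `n` -/
def DegreeCond {K : Type} [Field K] [NumberField K] (m n : ℕ) (F : Ext K) : Prop :=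
  (m ∣ F.deg ∧ F.deg ∣ m ^ 2) ∨ (n ∣ F.deg ∧ F.deg ∣ n ^ 2)

/-- An invariant of Artin characters: `C F d` are the Artin characters of dimension `d` of the number
field `F`, `res` is the restriction to a finite extension, `u` is the invariant, with values in the
abelian group `X`. The Artin formalism: if `∑ eᵢ π(Fᵢ) = k`, then `∏ u(χ restricted to Fᵢ)^eᵢ` is
`u(χ)^k`. -/
structure Invariant (X : Type) [CommGroup X] where
  C : ∀ (F : Type) [Field F] [NumberField F], ℕ → Type
  res : ∀ {K : Type} [Field K] [NumberField K] (F : Ext K) {d : ℕ}, C K d → C F.F d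
  u : ∀ {F : Type} [Field F] [NumberField F] {d : ℕ}, C F d → X
  formal : ∀ {K : Type} [Field K] [NumberField K] {d : ℕ} (χ : C K d) {r : ℕ} (F : Fin r → Ext K)
    (e : Fin r → ℤ) (k : ℤ), IsRelation F e k → ∏ i, u (res (F i) χ) ^ e i = u χ ^ k

end Pool.Agent.R904.DG
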