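import Pool.Agent.R904.DG.Formal
import Pool.Agent.R904.DG.Step

/-!
# Artin formalism: extensions of large degree suffice
-/

set_option autoImplicit false

namespace Pool.Agent.R904.DG

/-- the trivial character is a combination of permutation characters of large degree -/
theorem exists_family (K : Type) [Field K] [NumberField K] {m n : ℕ} (hm : 0 < m) (hn : 0 < n)
    (hmn : Nat.Coprime m n) :
    ∃ (r : ℕ) (Z : Fin r → Ext K) (e : Fin r → ℤ), (∀ i, DegreeCond m n (Z i)) ∧
      IsRelation Z e 1 := by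
  obtain ⟨r, Z, e, hd, h⟩ := permChar_gcd hm hn K
  refine ⟨r, Z, e, hd, fun g => ?_⟩
  rw [h g, hmn]
  rfl

lemma finrank_rat {K : Type} [Field K] [NumberField K] (Z : Ext K) :
    Module.finrank ℚ Z.F = Module.finrank ℚ K * Z.deg :=
  (Module.finrank_mul_finrank ℚ K Z.F).symm

lemma DegreeCond.rat {K : Type} [Field K] [NumberField K] {Z : Ext K} {m n : ℕ}
    (h : DegreeCond m n Z) : m ∣ Module.finrank ℚ Z.F ∨ n ∣ Module.finrank ℚ Z.F := by
  rw [finrank_rat]
  rcases h with h1 | h1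
  · exact Or.inl (Dvd.dvd.mul_left h1.1 _)
  · exact Or.inr (Dvd.dvd.mul_left h1.1 _)

section

variable {X : Type} [CommGroup X]

theorem invariant_family (K : Type) [Field K] [NumberField K] {m n : ℕ} (hm : 0 < m) (hn : 0 < n)
    (hmn : Nat.Coprime m n) :
    ∃ (r : ℕ) (Z : Fin r → Ext K), (∀ i, DegreeCond m n (Z i)) ∧
      ∀ (I : Invariant X) (d : ℕ) (χ : I.C K d), (∀ i, I.u (I.res (Z i) χ) = 1) → I.u χ = 1 := by
  obtain ⟨r, Z, e, hd, h⟩ := exists_family K hm hn hmn
  refine ⟨r, Z, hd, fun I d χ hχ => ?_⟩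
  have h1 := I.formal χ Z e 1 h
  rw [zpow_one] at h1
  rw [← h1]
  exact Finset.prod_eq_one fun i _ => by rw [hχ i, one_zpow]

theorem invariant_all (I : Invariant X) {m n d : ℕ} (hm : 0 < m) (hn : 0 < n)
    (hmn : Nat.Coprime m n)
    (h : ∀ (F : Type) [Field F] [NumberField F], (m ∣ Module.finrank ℚ F ∨ n ∣ Module.finrank ℚ F) →
      ∀ ψ : I.C F d, I.u ψ = 1)
    (K : Type) [Field K] [NumberField K] (χ : I.C K d) : I.u χ = 1 := by
  obtain ⟨r, Z, hd, hZ⟩ := invariant_family (X := X) K hm hn hmn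
  exact hZ I d χ fun i => h (Z i).F (hd i).rat _

end

end Pool.Agent.R904.DG
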