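import Pool.Agent.R904.DG.Motives
import Pool.Agent.R904.DG.FormalMain

/-!
# Deligne's conjecture: base fields of large degree suffice
-/

set_option autoImplicit false

namespace Pool.Agent.R904.DG

theorem permChar_self (K : Type) [Field K] [NumberField K]
    (g : AlgebraicClosure K ≃ₐ[K] AlgebraicClosure K) : permChar (Ext.self K) g = 1 := by
  unfold permChar
  have : Unique {τ : (Ext.self K).F →ₐ[K] AlgebraicClosure K // ∀ x, g (τ x) = τ x} :=
    { default := ⟨Algebra.ofId K (AlgebraicClosure K), fun x => g.commutes x⟩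
      uniq := by
        rintro ⟨τ, hτ⟩
        apply Subtype.ext
        exact Subsingleton.elim (α := K →ₐ[K] AlgebraicClosure K) τ _ }
  exact Nat.card_unique

/-- a relation as an identity between sums over lists -/
theorem exists_lists (K : Type) [Field K] [NumberField K] {m n : ℕ} (hm : 0 < m) (hn : 0 < n)
    (hmn : Nat.Coprime m n) :
    ∃ A B : List (Ext K), (∀ F ∈ A, DegreeCond m n F) ∧ (∀ F ∈ B, DegreeCond m n F) ∧
      ∀ g, (A.map fun F => permChar F g).sum =
        ((Ext.self K :: B).map fun F => permChar F g).sum := by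
  obtain ⟨r, Z, e, hd, h⟩ := exists_family K hm hn hmn
  have key : ∀ f : Fin r → ℕ, ∃ A : List (Ext K), (∀ F ∈ A, DegreeCond m n F) ∧
      ∀ g, (A.map fun F => permChar F g).sum = ∑ i, f i * permChar (Z i) g := by
    intro f
    refine ⟨(List.ofFn fun i => List.replicate (f i) (Z i)).flatten, ?_, ?_⟩
    · intro F hF
      rw [List.mem_flatten] at hF
      obtain ⟨l, hl, hF⟩ := hF
      rw [List.mem_ofFn] at hl
      obtain ⟨i, rfl⟩ := hl
      rw [List.eq_of_mem_replicate hF]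
      exact hd i
    · intro g
      rw [List.map_flatten, List.sum_flatten, List.map_ofFn, List.map_ofFn, List.sum_ofFn]
      refine Finset.sum_congr rfl fun i _ => ?_
      simp [Function.comp]
  obtain ⟨A, hA, hA'⟩ := key fun i => (e i).toNat
  obtain ⟨B, hB, hB'⟩ := key fun i => (-e i).toNat
  refine ⟨A, B, hA, hB, fun g => ?_⟩
  rw [List.map_cons, List.sum_cons, hA', hB', permChar_self]
  have h1 := h g
  have h2 : ∀ i, (e i) * (permChar (Z i) g : ℤ) =
      ((e i).toNat * permChar (Z i) g : ℕ) - ((-e i).toNat * permChar (Z i) g : ℕ) := by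
    intro i
    push_cast
    rw [← sub_mul]
    congr 1
    omega
  simp only [h2, Finset.sum_sub_distrib] at h1
  rw [← Nat.cast_sum, ← Nat.cast_sum] at h1
  omega

namespace Motives

variable {E : Type} [Field E] [NumberField E] (T : Motives E)

theorem L_list (l : List T.Mot) (σ : E →+* ℂ) :
    T.L (l.foldr T.add T.zero) σ = (l.map fun M => T.L M σ).prod := by
  induction l with
  | nil => simp [T.L_zero]
  | cons M l ih => simp [T.L_add, ih]

theorem c_list (l : List T.Mot) :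
    ∃ a : Eˣ, ∀ σ : E →+* ℂ, (T.c (l.foldr T.add T.zero) σ : ℂ) =
      σ a * (l.map fun M => (T.c M σ : ℂ)).prod := by
  induction l with
  | nil =>
    obtain ⟨a, ha⟩ := T.c_zero
    exact ⟨a, fun σ => by simp [ha]⟩
  | cons M l ih =>
    obtain ⟨a, ha⟩ := ih
    obtain ⟨b, hb⟩ := T.c_add M (l.foldr T.add T.zero)
    refine ⟨b * a, fun σ => ?_⟩
    rw [List.foldr_cons, hb, ha, List.map_cons, List.prod_cons, Units.val_mul, map_mul]
    ring

theorem deligne_list (l : List T.Mot) (h : ∀ M ∈ l, T.Deligne M) :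
    ∃ a : E, ∀ σ : E →+* ℂ, (l.map fun M => T.L M σ).prod =
      σ a * (l.map fun M => (T.c M σ : ℂ)).prod := by
  induction l with
  | nil => exact ⟨1, fun σ => by simp⟩
  | cons M l ih =>
    obtain ⟨a, ha⟩ := ih fun N hN => h N (List.mem_cons_of_mem _ hN)
    obtain ⟨b, hb⟩ := h M (List.mem_cons_self)
    refine ⟨b * a, fun σ => ?_⟩
    rw [List.map_cons, List.prod_cons, hb, ha, List.map_cons, List.prod_cons, map_mul]
    ring

theorem deligne_ne_zero {M : T.Mot} (h : T.Deligne M) {σ : E →+* ℂ} (hσ : T.L M σ ≠ 0)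
    (τ : E →+* ℂ) : T.L M τ ≠ 0 := by
  obtain ⟨a, ha⟩ := h
  have ha0 : a ≠ 0 := by
    rintro rfl
    rw [ha, map_zero, zero_mul] at hσ
    exact hσ rfl
  rw [ha]
  exact mul_ne_zero ((map_ne_zero τ).2 ha0) (T.c M τ).ne_zero

theorem descent (M : T.Mot) (A B : List (Ext ℚ))
    (hAB : ∀ g, (A.map fun F => permChar F g).sum =
      ((Ext.self ℚ :: B).map fun F => permChar F g).sum)
    (hA : ∀ F ∈ A, T.Deligne (T.ext M F)) (hB : ∀ F ∈ B, T.Deligne (T.ext M F))
    (hB0 : ∀ F ∈ B, ∃ σ, T.L (T.ext M F) σ ≠ 0) : T.Deligne M := by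
  have hiso := T.ext_perm M A (Ext.self ℚ :: B) hAB
  have h1 := T.L_iso _ _ hiso
  obtain ⟨u, hu⟩ := T.c_iso _ _ hiso
  obtain ⟨a, ha⟩ := T.deligne_list (A.map (T.ext M)) (by
    intro N hN
    obtain ⟨F, hF, rfl⟩ := List.mem_map.1 hN
    exact hA F hF)
  obtain ⟨b, hb⟩ := T.deligne_list (B.map (T.ext M)) (by
    intro N hN
    obtain ⟨F, hF, rfl⟩ := List.mem_map.1 hN
    exact hB F hF)
  obtain ⟨v, hv⟩ := T.c_list (A.map (T.ext M))
  obtain ⟨w, hw⟩ := T.c_list ((Ext.self ℚ :: B).map (T.ext M))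
  obtain ⟨x, hx⟩ := T.c_iso _ _ (T.ext_self M)
  have hself := T.L_iso _ _ (T.ext_self M)
  -- the product over `B` does not vanish
  have hne : ∀ σ : E →+* ℂ, ((B.map (T.ext M)).map fun N => T.L N σ).prod ≠ 0 := by
    intro σ h0
    rw [List.prod_eq_zero_iff, List.mem_map] at h0
    obtain ⟨N, hN, hN0⟩ := h0
    obtain ⟨F, hF, rfl⟩ := List.mem_map.1 hN
    obtain ⟨τ, hτ⟩ := hB0 F hF
    exact T.deligne_ne_zero (hB F hF) hτ σ hN0
  obtain ⟨σ₀⟩ : Nonempty (E →+* ℂ) := inferInstance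
  have hb0 : b ≠ 0 := by
    rintro rfl
    apply hne σ₀
    rw [hb, map_zero, zero_mul]
  refine ⟨a * b⁻¹ * (v⁻¹ * u * w * x : Eˣ), fun σ => ?_⟩
  have e1 := congrFun h1 σ
  rw [T.L_list, T.L_list, List.map_cons, List.map_cons, List.prod_cons, congrFun hself σ, ha, hb]
    at e1
  have e2 := hu σ
  rw [hv, hw, List.map_cons, List.map_cons, List.prod_cons, hx] at e2
  have hv0 : σ (v : E) ≠ 0 := (map_ne_zero σ).2 v.ne_zero
  have hbσ : σ b ≠ 0 := (map_ne_zero σ).2 hb0
  have hcB : ((B.map (T.ext M)).map fun N => (T.c N σ : ℂ)).prod ≠ 0 := by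
    intro h0
    rw [List.prod_eq_zero_iff, List.mem_map] at h0
    obtain ⟨N, -, hN0⟩ := h0
    exact (T.c N σ).ne_zero hN0
  set CA := ((A.map (T.ext M)).map fun N => (T.c N σ : ℂ)).prod with hCA
  set CB := ((B.map (T.ext M)).map fun N => (T.c N σ : ℂ)).prod with hCB
  have e3 : CA = (σ (v : E))⁻¹ * (σ (u : E) * (σ (w : E) * (σ (x : E) * T.c M σ * CB))) := by
    rw [← e2, ← mul_assoc, inv_mul_cancel₀ hv0, one_mul]
  rw [e3] at e1
  have e4 : T.L M σ * (σ b * CB) = (σ (a * b⁻¹ * (v⁻¹ * u * w * x : Eˣ)) * T.c M σ) * (σ b * CB) := by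
    rw [← e1]
    simp only [map_mul, map_inv₀, Units.val_mul, Units.val_inv_eq_inv_val]
    field_simp
  exact mul_right_cancel₀ (mul_ne_zero hbσ hcB) e4

end Motives

end Pool.Agent.R904.DG
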