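import Pool.Agent.R904.DG.Ext

/-!
# Motives over the rational numbers, their `L`-values and their periods
-/

set_option autoImplicit false

namespace Pool.Agent.R904.DG

/-- The motives over `ℚ` with coefficients in the number field `E` for which a given integer is
critical (for instance all pure motives of weight `w` without classes of type `(w/2, w/2)` whose
Hodge numbers make the integer critical), with the formal properties of their `L`-values and
Deligne periods. -/
structure Motives (E : Type) [Field E] [NumberField E] where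
  /-- the motives -/
  Mot : Type
  /-- the zero motive -/
  zero : Mot
  /-- the direct sum -/
  add : Mot → Mot → Mot
  /-- isomorphic motives -/
  Iso : Mot → Mot → Prop
  /-- `M ⊗ h⁰(F)`, the restriction of scalars to `ℚ` of the base change of `M` to `F` -/
  ext : Mot → Ext ℚ → Mot
  /-- the value of the `L`-function, an element of `E ⊗ ℂ = ℂ ^ Hom(E, ℂ)` -/
  L : Mot → (E →+* ℂ) → ℂ
  /-- the Deligne period (with the power of `2πi`), an element of `(E ⊗ ℂ)ˣ`, for some bases -/
  c : Mot → (E →+* ℂ) → ℂˣ
  L_zero : ∀ σ, L zero σ = 1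
  L_add : ∀ M N σ, L (add M N) σ = L M σ * L N σ
  L_iso : ∀ M N, Iso M N → L M = L N
  c_zero : ∃ a : Eˣ, ∀ σ : E →+* ℂ, (c zero σ : ℂ) = σ a
  c_add : ∀ M N, ∃ a : Eˣ, ∀ σ : E →+* ℂ, (c (add M N) σ : ℂ) = σ a * (c M σ * c N σ)
  c_iso : ∀ M N, Iso M N → ∃ a : Eˣ, ∀ σ : E →+* ℂ, (c M σ : ℂ) = σ a * c N σ
  /-- `M ⊗ h⁰(ℚ) = M` -/
  ext_self : ∀ M, Iso (ext M (Ext.self ℚ)) M
  /-- `⊕ h⁰(F)` depends, up to isomorphism, only on the sum of the permutation characters -/
  ext_perm : ∀ (M : Mot) (A B : List (Ext ℚ)),
    (∀ g, (A.map fun F => permChar F g).sum = (B.map fun F => permChar F g).sum) →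
    Iso ((A.map (ext M)).foldr add zero) ((B.map (ext M)).foldr add zero)

namespace Motives

variable {E : Type} [Field E] [NumberField E]

/-- Deligne's conjecture for `M`: the `L`-value is an element of `E` times the period. -/
def Deligne (T : Motives E) (M : T.Mot) : Prop :=
  ∃ a : E, ∀ σ : E →+* ℂ, T.L M σ = σ a * T.c M σ

end Motives

end Pool.Agent.R904.DG
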