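import Pool.Agent.R904.DG.Cnt
import Pool.Agent.R904.DG.Ext

/-!
# The trivial character as a combination of permutation characters of large degree
-/

set_option autoImplicit false

namespace Pool.Agent.R904.DG

open Polynomial

/-- the homomorphisms from `F` to `Ω` which extend `φ` and are fixed by `g` -/
def Over {K : Type} [Field K] (F : Type) [Field F] [Algebra K F] {Ω : Type} [Field Ω]
    (φ : K →+* Ω) (g : Ω ≃+* Ω) : Type :=
  {σ : F →+* Ω // σ.comp (algebraMap K F) = φ ∧ (g : Ω →+* Ω).comp σ = σ}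

/-- their number -/
noncomputable def fx {K : Type} [Field K] (F : Type) [Field F] [Algebra K F] {Ω : Type} [Field Ω]
    (φ : K →+* Ω) (g : Ω ≃+* Ω) : ℕ := Nat.card (Over F φ g)

section

variable {K : Type} [Field K] {F : Type} [Field F] [Algebra K F] {Ω : Type} [Field Ω]
  {φ : K →+* Ω} {g : Ω ≃+* Ω}

lemma finite_over [FiniteDimensional K F] : Finite (Over F φ g) := by
  letI : Algebra K Ω := φ.toAlgebra
  have : Finite (F →ₐ[K] Ω) := inferInstance
  refine Finite.of_injective (β := F →ₐ[K] Ω)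
    (fun σ => { σ.1 with commutes' := fun r => congrArg (fun f : K →+* Ω => f r) σ.2.1 }) ?_
  intro σ τ h
  apply Subtype.ext
  ext x
  exact congrArg (fun f : F →ₐ[K] Ω => f x) h

lemma fx_self (hg : (g : Ω →+* Ω).comp φ = φ) : fx K φ g = 1 := by
  unfold fx
  rw [Nat.card_eq_one_iff_unique]
  refine ⟨⟨fun σ τ => Subtype.ext ?_⟩, ⟨⟨φ, ?_, hg⟩⟩⟩
  · have h1 : σ.1 = φ := σ.2.1
    have h2 : τ.1 = φ := τ.2.1
    rw [h1, h2]
  · rfl

/-- towers -/
theorem fx_tower {L : Type} [Field L] [Algebra K L] [Algebra F L]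
    [IsScalarTower K F L] [FiniteDimensional F L] [Fintype (Over F φ g)] :
    fx L φ g = ∑ τ : Over F φ g, fx L τ.1 g := by
  have : ∀ τ : Over F φ g, Finite (Over L τ.1 g) := fun τ => finite_over
  unfold fx
  rw [← Nat.card_sigma]
  refine Nat.card_congr
    { toFun := fun σ => ⟨⟨σ.1.comp (algebraMap F L), ?_, ?_⟩, ⟨σ.1, rfl, σ.2.2⟩⟩
      invFun := fun s => ⟨s.2.1, ?_, s.2.2.2⟩
      left_inv := fun σ => rfl
      right_inv := ?_ }
  · rw [RingHom.comp_assoc, ← IsScalarTower.algebraMap_eq]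
    exact σ.2.1
  · rw [← RingHom.comp_assoc, σ.2.2]
  · rw [IsScalarTower.algebraMap_eq K F L, ← RingHom.comp_assoc, s.2.2.1]
    exact s.1.2.1
  · rintro ⟨⟨τ, h1, h2⟩, ⟨σ, h3, h4⟩⟩
    have h3' : σ.comp (algebraMap F L) = τ := h3
    subst h3'
    rfl

/-- pure extensions -/
theorem fx_pure {p : ℕ} {c : K} [Fact (Irreducible (X ^ p - C c))]
    (hg : (g : Ω →+* Ω).comp φ = φ) : fx (AdjoinRoot (X ^ p - C c)) φ g = nr p g (φ c) := by
  unfold fx nr
  refine Nat.card_congr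
    { toFun := fun σ => ⟨σ.1 (AdjoinRoot.root _), ?_, ?_⟩
      invFun := fun x => ⟨AdjoinRoot.lift φ x.1 ?_, ?_, ?_⟩
      left_inv := ?_
      right_inv := ?_ }
  · have h1 := AdjoinRoot.eval₂_root (X ^ p - C c)
    rw [eval₂_sub, eval₂_pow, eval₂_X, eval₂_C, sub_eq_zero] at h1
    rw [← map_pow, h1]
    exact congrArg (fun f : K →+* Ω => f c) σ.2.1
  · exact congrArg (fun f : AdjoinRoot (X ^ p - C c) →+* Ω => f (AdjoinRoot.root _)) σ.2.2
  · rw [eval₂_sub, eval₂_pow, eval₂_X, eval₂_C, x.2.1, sub_self]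
  · exact AdjoinRoot.lift_comp_of _
  · refine AdjoinRoot.ringHom_ext ?_ ?_
    · rw [RingHom.comp_assoc, AdjoinRoot.lift_comp_of]
      exact hg
    · rw [RingHom.comp_apply, AdjoinRoot.lift_root]
      exact x.2.2
  · intro σ
    apply Subtype.ext
    refine AdjoinRoot.ringHom_ext ?_ ?_
    · rw [AdjoinRoot.lift_comp_of]
      exact σ.2.1.symm
    · rw [AdjoinRoot.lift_root]
  · intro x
    apply Subtype.ext
    have h0 : eval₂ φ x.1 (X ^ p - C c) = 0 := by
      rw [eval₂_sub, eval₂_pow, eval₂_X, eval₂_C, x.2.1, sub_self]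
    exact AdjoinRoot.lift_root h0

end

end Pool.Agent.R904.DG
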